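import Pool.Agent.Lib_helper43.TR6.Z0

/-!
# The abstract framework: good edges, good vertices

No numbers: everything that the analysis of a graph needs from an edge is in `EdgeG`, everything that
it needs from a vertex is in `VertG`.
-/

set_option autoImplicit false

open Filter Topology MeasureTheory Complex

namespace Pool.Agent.TR8

open Pool.Agent.TB Pool.Agent.LB
open Pool.Agent.Lib_helper61.TBL (gl)
open Pool.Agent.TR5 (AA GG QQ deg sumAt Gp GFz)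
open Pool.Agent.TR6 (LL cm cs Df)

/-- the tangent of an edge at a vertex: height `v`, abscissa `x0`, share `g`, option `m`
(`true`: the mirrored label) -/
noncomputable def DG (g : ℝ) (m : Bool) (v x0 : ℝ) (A : ℂ) (x : ℝ) : ℝ :=
  LL v x0 A (cm m x) + (if m then TR5.mt v x else 0) - g * (cm m x - x0) ^ 2

/-- **a good edge**: heights `v`, `v'`, abscissas `x0`, `y0`, shares `g`, `g'` -/
structure EdgeG (v x0 g v' y0 g' : ℝ) : Prop where
  /-- the saddle is principal -/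
  pr : VM.Pr (gl v x0) (gl v' y0)
  /-- the bound of the lower half of the kernel -/
  kb : ∀ η : ℝ, 0 < η → ∀ᶠ N : ℕ in atTop, ∀ x y : ℝ,
    ‖kerw N (half N false) (gl v x) (gl v' y)‖ ≤ Real.exp (N * (QQ v v' x y + η))
  /-- the kernel near the saddle -/
  kl : ∃ E : Set (ℂ × ℂ), IsOpen E ∧ (gl v x0, gl v' y0) ∈ E ∧ ∃ β' : ℂ × ℂ → ℂ,
    TendstoLocallyUniformlyOn (fun (N : ℕ) (p : ℂ × ℂ) => (N : ℂ) ^ (3 / 2 : ℂ) *
      cexp (-(N * Gk p.1 p.2)) * kerw N (half N false) p.1 p.2) β' atTop E ∧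
    β' (gl v x0, gl v' y0) ≠ 0
  /-- the concavity -/
  hd : ∃ c : ℝ, 0 < c ∧ ∀ (m m' : Bool) (x y : ℝ), (m = true → x < 0) → (m' = true → y < 0) →
    QQ v v' x y ≤ GG v v' x0 y0 + DG g m v x0 (AA v x0 v' y0) x +
      DG g' m' v' y0 (AA v' y0 v x0) y - c * max |cm m x - x0| |cm m' y - y0| ^ 2
  /-- the middle zone -/
  mid : ∃ c : ℝ, 0 < c ∧ ∀ (m m' : Bool) (x y x' : ℝ), (m = true → x < 0) →
    (m' = true → y < 0) → Real.pi / 10 ≤ x' → x' ≤ Real.pi / 2 →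
    |(gl v x).im| + |(gl v' y).im| - VM.rt (x' : ℂ) (gl v x) - VM.rt (x' : ℂ) (gl v' y) ≤
      GG v v' x0 y0 + DG g m v x0 (AA v x0 v' y0) x + DG g' m' v' y0 (AA v' y0 v x0) y - c
  /-- beside a top edge at the second end -/
  js : ∀ (m : Bool) (x x' : ℝ), (m = true → x < 0) → 0 ≤ x' → x' ≤ Real.pi / 10 →
    VM.rt (x' : ℂ) 0 + VM.rt (x' : ℂ) (gl v x) + -(AA v' y0 v x0 * gl v' y0).re /
      (2 * Real.pi) ≤ GG v v' x0 y0 + DG g m v x0 (AA v x0 v' y0) x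
  /-- beside a top edge at the first end -/
  jt : ∀ (m : Bool) (y x' : ℝ), (m = true → y < 0) → 0 ≤ x' → x' ≤ Real.pi / 10 →
    VM.rt (x' : ℂ) 0 + VM.rt (x' : ℂ) (gl v' y) + -(AA v x0 v' y0 * gl v x0).re /
      (2 * Real.pi) ≤ GG v v' x0 y0 + DG g' m v' y0 (AA v' y0 v x0) y
  /-- the value at the saddle -/
  xi : 3 ≤ TR5.XI v x0 v' y0
  /-- the cost of a top edge is positive -/
  cost : (|(gl v x0).im| + |(gl v' y0).im|) / 2 < TR5.XI v x0 v' y0 / Real.pi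

/-- **a good vertex**: weight `a`, `n` edges, height `v`, abscissa `x0`, share `g` of each edge -/
def VertG (a : ℤ) (n : ℕ) (v x0 g : ℝ) : Prop := ∃ c : ℝ, 0 < c ∧ ∀ x : ℝ,
  Df a v x0 x (cs x) ≤ n * g * (cs x - x0) ^ 2 ∨
  (x < 0 ∧ Df a v x0 x (TR5.cl x) +
    n * (|(gl v (TR5.cl x)).im| * (gl v (TR5.cl x)).re / (4 * Real.pi)) ≤
    n * g * (TR5.cl x - x0) ^ 2 - c)

/-- **good critical points** of a graph with weights `a` -/
structure SadG {ι τ : Type} [Fintype ι] [Fintype τ] [DecidableEq ι] [DecidableEq τ] (s t : τ → ι)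
    (a : ι → ℤ) (v x0 g : ι → ℝ) : Prop where
  v0 : ∀ r, v r ≠ 0
  v1 : ∀ r, |v r| ≤ 1
  x1 : ∀ r, |x0 r| ≤ 11 / 10
  vert : ∀ r, VertG (a r) (deg s t r) (v r) (x0 r) (g r)
  edge : ∀ e, EdgeG (v (s e)) (x0 (s e)) (g (s e)) (v (t e)) (x0 (t e)) (g (t e))
  crit : ∀ r, (I * a r * gl (v r) (x0 r) / (2 * Real.pi) - sl (lw (v r)) * I) =
    sumAt s t r fun r' => AA (v r) (x0 r) (v r') (x0 r') / Real.pi

/-- **(FAR)** the main zone of a graph -/
def FarG : Prop := ∀ (ι τ : Type) [Fintype ι] [Fintype τ] [DecidableEq ι] [DecidableEq τ]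
  (s t : τ → ι) (a : ι → ℤ), Fintype.card ι = Fintype.card τ + 1 → (∀ r, 1 ≤ deg s t r) →
  ∀ v x0 g : ι → ℝ, SadG s t a v x0 g → ∃ c : ℂ, c ≠ 0 ∧
    Tendsto (fun N : ℕ => (N : ℂ) ^ (-(3 / 2) : ℂ) *
      Complex.exp (-(N * Gp s t a v (fun _ P => Gk P.1 P.2) x0)) *
        GFz s t N a (fun h => ∏ e, half N false (h e))) atTop (𝓝 c)

/-- **(GR)** the asymptotics of the sum of a graph -/
def GrG : Prop := ∀ (ι τ : Type) [Fintype ι] [Fintype τ] [DecidableEq ι] [DecidableEq τ]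
  (s t : τ → ι) (a : ι → ℤ), Fintype.card ι = Fintype.card τ + 1 → (∀ e, s e ≠ t e) →
  (∀ r, 1 ≤ deg s t r) → ∀ v x0 g : ι → ℝ, SadG s t a v x0 g →
  ∃ c : ℂ, c ≠ 0 ∧ Tendsto (fun N : ℕ => (N : ℂ) ^ (-(3 / 2) : ℂ) *
      Complex.exp (-(N * Gp s t a v (fun _ P => Gk P.1 P.2) x0)) * GFz s t N a (fun _ => 1))
      atTop (𝓝 c)

end Pool.Agent.TR8
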