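import Pool.Agent.Lib_helper43.TR8.A0
import Pool.Agent.Lib_helper43.TR5.R6
import Pool.Agent.Lib_helper56.TR5.Z2

/-!
# The abstract framework: the asymptotics of the sum of a graph
-/

set_option autoImplicit false

open Filter Topology MeasureTheory Complex

namespace Pool.Agent.TR8

open Pool.Agent.TB Pool.Agent.LB
open Pool.Agent.Lib_helper61.TBL hiding cl
open Pool.Agent.TR5 (AA GG QQ deg sumAt Gp GFz g_zones th3 th3_prod_sum th3_zero g_rest GG_symm mt)
open Pool.Agent.TR6 (LL cm cs Df)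

variable {ι τ : Type} [Fintype ι] [Fintype τ] [DecidableEq ι] [DecidableEq τ]

/-- **the sum rule** -/
theorem g_sum (s t : τ → ι) {a : ι → ℤ} {v x0 : ι → ℝ} (h0 : ∀ r, v r ≠ 0)
    (hv : ∀ r, |v r| < Real.pi / 2)
    (hcr : ∀ r, (I * a r * gl (v r) (x0 r) / (2 * Real.pi) - sl (lw (v r)) * I) =
      sumAt s t r fun r' => AA (v r) (x0 r) (v r') (x0 r') / Real.pi) (r : ι) :
    -|(gl (v r) (x0 r)).im| / 2 = (Fe (lw (v r)) (a r) (gl (v r) (x0 r))).re +
      ∑ e, ((if s e = r then -(AA (v (s e)) (x0 (s e)) (v (t e)) (x0 (t e)) *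
        gl (v (s e)) (x0 (s e))).re / (2 * Real.pi) else 0) +
        if t e = r then -(AA (v (t e)) (x0 (t e)) (v (s e)) (x0 (s e)) *
          gl (v (t e)) (x0 (t e))).re / (2 * Real.pi) else 0) := by
  have hpi := Real.pi_pos
  have hpc : (Real.pi : ℂ) ≠ 0 := by exact_mod_cast hpi.ne'
  have hc := hcr r
  set w := gl (v r) (x0 r) with hw
  have e1 : ∑ e, ((if s e = r then -(AA (v (s e)) (x0 (s e)) (v (t e)) (x0 (t e)) *
        gl (v (s e)) (x0 (s e))).re / (2 * Real.pi) else 0) +
        if t e = r then -(AA (v (t e)) (x0 (t e)) (v (s e)) (x0 (s e)) *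
          gl (v (t e)) (x0 (t e))).re / (2 * Real.pi) else 0) =
      -((sumAt s t r fun r' => AA (v r) (x0 r) (v r') (x0 r') / Real.pi) * (w / 2)).re := by
    unfold sumAt
    rw [Finset.sum_mul, re_sum, ← Finset.sum_neg_distrib]
    refine Finset.sum_congr rfl fun e _ => ?_
    have key : ∀ A : ℂ, -(A * w).re / (2 * Real.pi) = -(A / Real.pi * (w / 2)).re := by
      intro A
      have e2 : A / Real.pi * (w / 2) = (A * w) / ((2 * Real.pi : ℝ) : ℂ) := by
        push_cast
        field_simp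
      rw [e2, div_ofReal_re]
      ring
    rw [add_mul, add_re, neg_add]
    congr 1
    · split_ifs with h
      · rw [h]
        exact key _
      · simp
    · split_ifs with h
      · rw [h]
        exact key _
      · simp
  have e3 : Fe (lw (v r)) (a r) w = (I * a r * w / (2 * Real.pi) - sl (lw (v r)) * I) * (w / 2) -
      sl (lw (v r)) * I * (w / 2) + ((Real.pi * (a r : ℝ) / 4 : ℝ) : ℂ) * I := by
    unfold Fe
    push_cast
    field_simp
    ring
  rw [e1, ← hc, e3, add_re, sub_re, re_ofReal_mul]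
  have e4 : (((sl (lw (v r)) : ℝ) : ℂ) * I * (w / 2)).re = -(sl (lw (v r)) * w.im) / 2 := by
    rw [mul_assoc, re_ofReal_mul, I_mul_re, div_ofNat_im]
    ring
  rw [e4, TR5.sl_im (h0 r) (hv r), I_re]
  ring

/-- the tangents of the edges at a vertex, with an option -/
theorem sum_DG (s t : τ → ι) {a : ι → ℤ} {v x0 g : ι → ℝ}
    (hcr : ∀ r, (I * a r * gl (v r) (x0 r) / (2 * Real.pi) - sl (lw (v r)) * I) =
      sumAt s t r fun r' => AA (v r) (x0 r) (v r') (x0 r') / Real.pi) (r : ι) (m : Bool)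
    (x : ℝ) : ∑ e, ((if s e = r then DG (g (s e)) m (v (s e)) (x0 (s e))
          (AA (v (s e)) (x0 (s e)) (v (t e)) (x0 (t e))) x else 0) +
        if t e = r then DG (g (t e)) m (v (t e)) (x0 (t e))
          (AA (v (t e)) (x0 (t e)) (v (s e)) (x0 (s e))) x else 0) =
      -((I * a r * gl (v r) (x0 r) / (2 * Real.pi) - sl (lw (v r)) * I) *
        (gl (v r) (cm m x) - gl (v r) (x0 r))).re +
      (deg s t r : ℝ) * ((if m then mt (v r) x else 0) -
        g r * (cm m x - x0 r) ^ 2) := by
  set k := (if m then mt (v r) x else 0) - g r * (cm m x - x0 r) ^ 2 with hk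
  have e2 : (deg s t r : ℝ) * k = ∑ e, ((if s e = r then k else 0) +
      if t e = r then k else 0) := by
    unfold deg
    rw [Finset.sum_add_distrib, ← Finset.sum_filter, ← Finset.sum_filter, Finset.sum_const,
      Finset.sum_const]
    push_cast
    rw [nsmul_eq_mul, nsmul_eq_mul]
    ring
  rw [hcr r]
  unfold sumAt
  rw [e2, Finset.sum_mul, re_sum, ← Finset.sum_neg_distrib, ← Finset.sum_add_distrib]
  refine Finset.sum_congr rfl fun e _ => ?_
  rw [add_mul, add_re]
  have key : ∀ A : ℂ, DG (g r) m (v r) (x0 r) A x =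
      -(A / Real.pi * (gl (v r) (cm m x) - gl (v r) (x0 r))).re + k := by
    intro A
    have e3 : A / Real.pi * (gl (v r) (cm m x) - gl (v r) (x0 r)) =
        (A * (gl (v r) (cm m x) - gl (v r) (x0 r))) / ((Real.pi : ℝ) : ℂ) := by ring
    rw [e3, div_ofReal_re, hk]
    unfold DG LL
    ring
  have k1 : (if s e = r then DG (g (s e)) m (v (s e)) (x0 (s e))
        (AA (v (s e)) (x0 (s e)) (v (t e)) (x0 (t e))) x else 0) =
      -((if s e = r then AA (v r) (x0 r) (v (t e)) (x0 (t e)) / Real.pi else 0) *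
        (gl (v r) (cm m x) - gl (v r) (x0 r))).re + if s e = r then k else 0 := by
    split_ifs with h
    · rw [h]
      exact key _
    · simp
  have k2 : (if t e = r then DG (g (t e)) m (v (t e)) (x0 (t e))
        (AA (v (t e)) (x0 (t e)) (v (s e)) (x0 (s e))) x else 0) =
      -((if t e = r then AA (v r) (x0 r) (v (s e)) (x0 (s e)) / Real.pi else 0) *
        (gl (v r) (cm m x) - gl (v r) (x0 r))).re + if t e = r then k else 0 := by
    split_ifs with h
    · rw [h]
      exact key _
    · simp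
  rw [k1, k2]
  ring

/-- **the vertices**: the option, with a loss for the mirrored labels -/
theorem g_V' {s t : τ → ι} {a : ι → ℤ} {v x0 g : ι → ℝ}
    (hcr : ∀ r, (I * a r * gl (v r) (x0 r) / (2 * Real.pi) - sl (lw (v r)) * I) =
      sumAt s t r fun r' => AA (v r) (x0 r) (v r') (x0 r') / Real.pi)
    (hV : ∀ r, VertG (a r) (deg s t r) (v r) (x0 r) (g r)) :
    ∃ (c : ι → ℝ) (o : ι → ℝ → Bool), (∀ r, 0 < c r) ∧ (∀ r x, o r x = true → x < 0) ∧
      ∀ r x, (Fe (lw (v r)) (a r) (gl (v r) x)).re ≤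
        (Fe (lw (v r)) (a r) (gl (v r) (x0 r))).re -
        (∑ e, ((if s e = r then DG (g (s e)) (o (s e) x) (v (s e)) (x0 (s e))
            (AA (v (s e)) (x0 (s e)) (v (t e)) (x0 (t e))) x else 0) +
          if t e = r then DG (g (t e)) (o (t e) x) (v (t e)) (x0 (t e))
            (AA (v (t e)) (x0 (t e)) (v (s e)) (x0 (s e))) x else 0)) -
        if o r x then c r else 0 := by
  classical
  choose c hc H using hV
  refine ⟨c, fun r x => !decide (Df (a r) (v r) (x0 r) x (cs x) ≤
    (deg s t r : ℝ) * g r * (cs x - x0 r) ^ 2), hc, fun r x => ?_, fun r x => ?_⟩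
  · intro h
    rcases H r x with k | k
    · simp [k] at h
    · exact k.1
  · set o : ι → ℝ → Bool := fun r x => !decide (Df (a r) (v r) (x0 r) x (cs x) ≤
      (deg s t r : ℝ) * g r * (cs x - x0 r) ^ 2) with ho
    have e0 : ∑ e, ((if s e = r then DG (g (s e)) (o (s e) x) (v (s e)) (x0 (s e))
          (AA (v (s e)) (x0 (s e)) (v (t e)) (x0 (t e))) x else 0) +
        if t e = r then DG (g (t e)) (o (t e) x) (v (t e)) (x0 (t e))
          (AA (v (t e)) (x0 (t e)) (v (s e)) (x0 (s e))) x else 0) =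
        ∑ e, ((if s e = r then DG (g (s e)) (o r x) (v (s e)) (x0 (s e))
          (AA (v (s e)) (x0 (s e)) (v (t e)) (x0 (t e))) x else 0) +
        if t e = r then DG (g (t e)) (o r x) (v (t e)) (x0 (t e))
          (AA (v (t e)) (x0 (t e)) (v (s e)) (x0 (s e))) x else 0) := by
      refine Finset.sum_congr rfl fun e _ => ?_
      congr 1
      · split_ifs with h
        · rw [h]
        · rfl
      · split_ifs with h
        · rw [h]
        · rfl
    rw [e0, sum_DG s t hcr r (o r x) x]
    by_cases hk : Df (a r) (v r) (x0 r) x (cs x) ≤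
      (deg s t r : ℝ) * g r * (cs x - x0 r) ^ 2
    · have hf : o r x = false := by
        rw [ho]
        simp [hk]
      rw [hf]
      unfold Df at hk
      simp only [cm, Bool.false_eq_true, if_false]
      linarith
    · have ht : o r x = true := by
        rw [ho]
        simp [hk]
      rcases H r x with k | ⟨k1, k2⟩
      · exact absurd k hk
      · rw [ht]
        have e1 : mt (v r) x = |(gl (v r) (TR5.cl x)).im| * (gl (v r) (TR5.cl x)).re /
            (4 * Real.pi) := by
          unfold TR5.mt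
          rw [if_pos k1]
        rw [← e1] at k2
        unfold Df at k2
        simp only [cm, if_true]
        linarith

/-- **the vertices**: the option -/
theorem g_V {s t : τ → ι} {a : ι → ℤ} {v x0 g : ι → ℝ}
    (hcr : ∀ r, (I * a r * gl (v r) (x0 r) / (2 * Real.pi) - sl (lw (v r)) * I) =
      sumAt s t r fun r' => AA (v r) (x0 r) (v r') (x0 r') / Real.pi)
    (hV : ∀ r, VertG (a r) (deg s t r) (v r) (x0 r) (g r)) :
    ∃ o : ι → ℝ → Bool, (∀ r x, o r x = true → x < 0) ∧
      ∀ r x, (Fe (lw (v r)) (a r) (gl (v r) x)).re ≤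
        (Fe (lw (v r)) (a r) (gl (v r) (x0 r))).re -
        ∑ e, ((if s e = r then DG (g (s e)) (o (s e) x) (v (s e)) (x0 (s e))
            (AA (v (s e)) (x0 (s e)) (v (t e)) (x0 (t e))) x else 0) +
          if t e = r then DG (g (t e)) (o (t e) x) (v (t e)) (x0 (t e))
            (AA (v (t e)) (x0 (t e)) (v (s e)) (x0 (s e))) x else 0) := by
  obtain ⟨c, o, hc, h2, h3⟩ := g_V' hcr hV
  refine ⟨o, h2, fun r x => ?_⟩
  have h4 := h3 r x
  have h6 : 0 ≤ if o r x then c r else 0 := by
    split_ifs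
    · exact (hc r).le
    · exact le_rfl
  linarith

/-- **(GR)** from **(FAR)**; `hB3`: the rate of the real labels -/
theorem grG_of (hF : FarG) (hB3 : ∀ x' : ℝ, 0 ≤ x' → x' ≤ Real.pi / 10 →
    2 * Real.pi * VM.rt (x' : ℂ) 0 ≤ 3) : GrG := by
  intro ι τ _ _ _ _ s t a hc hst h1 v x0 g S
  obtain ⟨c, hc0, hlim⟩ := hF ι τ s t a hc h1 v x0 g S
  refine ⟨c, hc0, ?_⟩
  have hpi := Real.pi_pos
  have hv : ∀ r, |v r| < Real.pi / 2 := fun r => by
    have k1 := S.v1 r
    have k2 := Real.pi_gt_three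
    linarith
  obtain ⟨o, ho, hRI⟩ := g_V S.crit S.vert
  refine g_zones s t a (Z := τ → Fin 3) (fun _ => 0)
    (fun N z κ => ∏ e, th3 N (z e) (κ e)) th3_prod_sum ?_ ?_
  · have e1 : ∀ N : ℕ, (fun κ : τ → Fin N => ∏ e, th3 N (0 : Fin 3) (κ e)) =
        fun h => ∏ e, half N false (h e) := by
      intro N
      rw [th3_zero]
    refine hlim.congr fun N => ?_
    rw [← e1 N]
  · intro z hz
    have hz' : ∃ e, z e ≠ 0 := by
      by_contra h
      push Not at h
      exact hz (funext h)
    -- the common constant of the middle zone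
    choose cm0 hcm0 hmid using fun e => (S.edge e).mid
    obtain ⟨c0, hc0p, hc0le⟩ := TR5.exists_eps' hcm0
    have hBB : ∀ (e : τ) (x' : ℝ), 0 ≤ x' → x' ≤ Real.pi / 10 → 2 * VM.rt (x' : ℂ) 0 +
        -(AA (v (s e)) (x0 (s e)) (v (t e)) (x0 (t e)) * gl (v (s e)) (x0 (s e))).re /
          (2 * Real.pi) +
        -(AA (v (t e)) (x0 (t e)) (v (s e)) (x0 (s e)) * gl (v (t e)) (x0 (t e))).re /
          (2 * Real.pi) ≤ GG (v (s e)) (v (t e)) (x0 (s e)) (x0 (t e)) := by
      intro e x' h0 h1
      have k1 := hB3 x' h0 h1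
      have k2 := (S.edge e).xi
      unfold TR5.XI at k2
      generalize (AA (v (s e)) (x0 (s e)) (v (t e)) (x0 (t e)) * gl (v (s e)) (x0 (s e))).re = p
        at *
      generalize (AA (v (t e)) (x0 (t e)) (v (s e)) (x0 (s e)) * gl (v (t e)) (x0 (t e))).re = q
        at *
      generalize GG (v (s e)) (v (t e)) (x0 (s e)) (x0 (t e)) = g at *
      generalize VM.rt (x' : ℂ) 0 = R at *
      have k3 : Real.pi * (2 * R + -p / (2 * Real.pi) + -q / (2 * Real.pi)) ≤ Real.pi * g := by
        have e1 : Real.pi * (2 * R + -p / (2 * Real.pi) + -q / (2 * Real.pi)) =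
            2 * Real.pi * R - p / 2 - q / 2 := by
          field_simp
          ring
        rw [e1]
        linarith
      exact le_of_mul_le_mul_left k3 hpi
    have hcost : ∀ e, 0 < GG (v (s e)) (v (t e)) (x0 (s e)) (x0 (t e)) -
        -(AA (v (s e)) (x0 (s e)) (v (t e)) (x0 (t e)) * gl (v (s e)) (x0 (s e))).re /
          (2 * Real.pi) -
        -(AA (v (t e)) (x0 (t e)) (v (s e)) (x0 (s e)) * gl (v (t e)) (x0 (t e))).re /
          (2 * Real.pi) + -|(gl (v (s e)) (x0 (s e))).im| / 2 +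
        -|(gl (v (t e)) (x0 (t e))).im| / 2 := by
      intro e
      have k2 := (S.edge e).cost
      unfold TR5.XI at k2
      generalize (AA (v (s e)) (x0 (s e)) (v (t e)) (x0 (t e)) * gl (v (s e)) (x0 (s e))).re = p
        at *
      generalize (AA (v (t e)) (x0 (t e)) (v (s e)) (x0 (s e)) * gl (v (t e)) (x0 (t e))).re = q
        at *
      generalize GG (v (s e)) (v (t e)) (x0 (s e)) (x0 (t e)) = g at *
      generalize |(gl (v (s e)) (x0 (s e))).im| = u at *
      generalize |(gl (v (t e)) (x0 (t e))).im| = u' at *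
      have k3 : (Real.pi * g + p / 2 + q / 2) / Real.pi = g - -p / (2 * Real.pi) -
          -q / (2 * Real.pi) := by
        field_simp
        ring
      rw [k3] at k2
      linarith
    obtain ⟨ε, hε, h⟩ := g_rest s t hst a (v := v) S.v0 hv
      (Fs := fun r => (Fe (lw (v r)) (a r) (gl (v r) (x0 r))).re)
      (Gs := fun r => -|(gl (v r) (x0 r)).im| / 2)
      (Hs := fun e => GG (v (s e)) (v (t e)) (x0 (s e)) (x0 (t e)))
      (js := fun e => -(AA (v (s e)) (x0 (s e)) (v (t e)) (x0 (t e)) *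
        gl (v (s e)) (x0 (s e))).re / (2 * Real.pi))
      (jt := fun e => -(AA (v (t e)) (x0 (t e)) (v (s e)) (x0 (s e)) *
        gl (v (t e)) (x0 (t e))).re / (2 * Real.pi))
      (ds := fun e x => DG (g (s e)) (o (s e) x) (v (s e)) (x0 (s e))
        (AA (v (s e)) (x0 (s e)) (v (t e)) (x0 (t e))) x)
      (dt := fun e x => DG (g (t e)) (o (t e) x) (v (t e)) (x0 (t e))
        (AA (v (t e)) (x0 (t e)) (v (s e)) (x0 (s e))) x)
      (c0 := c0) hc0p
      hRI
      (fun η hη e => by
        obtain ⟨c1, hc1, hhd⟩ := (S.edge e).hd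
        filter_upwards [(S.edge e).kb η hη] with N hN x y
        refine (hN x y).trans (Real.exp_le_exp.mpr ?_)
        refine mul_le_mul_of_nonneg_left ?_ (Nat.cast_nonneg N)
        have k1 := hhd (o (s e) x) (o (t e) y) x y (ho (s e) x) (ho (t e) y)
        have k2 : 0 ≤ c1 * max |cm (o (s e) x) x - x0 (s e)| |cm (o (t e) y) y - x0 (t e)| ^ 2 :=
          mul_nonneg hc1.le (by positivity)
        linarith)
      (fun e x y x' h0 h1 => by
        have k1 := hmid e (o (s e) x) (o (t e) y) x y x' (ho _ x) (ho _ y) h0 h1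
        have k2 := hc0le e
        linarith)
      (fun e x x' h0 h1 => (S.edge e).js _ x x' (ho _ x) h0 h1)
      (fun e y x' h0 h1 => (S.edge e).jt _ y x' (ho _ y) h0 h1)
      hBB
      (fun r => g_sum s t S.v0 hv S.crit r)
      hcost
      hz'
    refine ⟨ε, hε, ?_⟩
    have e2 : (Gp s t a v (fun _ P => Gk P.1 P.2) x0).re =
        (∑ r, (Fe (lw (v r)) (a r) (gl (v r) (x0 r))).re) +
          ∑ e, GG (v (s e)) (v (t e)) (x0 (s e)) (x0 (t e)) := by
      unfold Gp GG
      rw [add_re, re_sum, re_sum]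
    rw [e2]
    exact h

end Pool.Agent.TR8
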